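import Pool.Agent.Y270.AR.Base

/-! The energy inequality, statement `S_MAIN0` of `Pool.Agent.Y520.AR.Stm` (author: helper270). -/

set_option autoImplicit false

open MeasureTheory Set Filter Topology Laplacian InnerProductSpace
open scoped ContDiff

namespace Pool.Agent.Y270.AR

open Pool.Agent.H947R3 Pool.Agent.Y520.AR

variable {n : ℕ}

/-- the positive supersolution -/
lemma supersol {Ω : Set (E n)} (hΩ : IsOpen Ω) (hb : Bornology.IsBounded Ω) {c : E n → E n}
    {f : ℝ → ℝ} (hf : TypeR f) {l l' : ℝ} (hl : 0 < l) (hll : l < l') {u u' : E n → ℝ}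
    (hu : Sol Ω c f l u) (hu' : Sol Ω c f l' u') (hle : ∀ x ∈ Ω, u x ≤ u' x) :
    ∃ z : E n → ℝ, ContDiffOn ℝ 2 z Ω ∧ (∀ x ∈ Ω, 0 < z x) ∧
      ∀ x ∈ Ω, l * deriv f (u x) * z x ≤ - Δ z x + fderiv ℝ z x (c x) := by
  obtain ⟨M, hM, hMb⟩ := exists_bound_comp hb hu.cont (tr_cont_deriv hf)
  obtain ⟨e, he, heM⟩ : ∃ e : ℝ, 0 < e ∧ e * (l * M) ≤ l' - l := by
    refine ⟨(l' - l) / (l * M), by have := sub_pos.2 hll; positivity, ?_⟩
    rw [div_mul_cancel₀]
    positivity
  refine ⟨fun x => u' x - u x + e, (hu'.c2.sub hu.c2).add contDiffOn_const, fun x hx => ?_,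
    fun x hx => ?_⟩
  · have := hle x hx
    show 0 < u' x - u x + e
    linarith
  · have h1 : ContDiffAt ℝ 2 u x := hu.c2.contDiffAt (hΩ.mem_nhds hx)
    have h2 : ContDiffAt ℝ 2 u' x := hu'.c2.contDiffAt (hΩ.mem_nhds hx)
    have hlap : Δ (fun x => u' x - u x + e) x = Δ u' x - Δ u x := by
      have e1 : (fun x => u' x - u x + e) = (u' - u) + fun _ => e := rfl
      have h3 : ContDiffAt ℝ 2 (u' - u) x := h2.sub h1
      rw [e1, h3.laplacian_add contDiffAt_const, h2.laplacian_sub h1, laplacian_const]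
      simp
    have hfd : fderiv ℝ (fun x => u' x - u x + e) x = fderiv ℝ u' x - fderiv ℝ u x := by
      have d1 : DifferentiableAt ℝ u x := h1.differentiableAt (by norm_num)
      have d2 : DifferentiableAt ℝ u' x := h2.differentiableAt (by norm_num)
      exact ((d2.hasFDerivAt.sub d1.hasFDerivAt).add_const e).fderiv
    rw [hlap, hfd]
    have q1 := hu.eq x hx
    have q2 := hu'.eq x hx
    have t1 := tr_tangent hf (u x) (u' x)
    have t2 := tr_one_le hf (hu'.nonneg x hx)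
    have t3 := hle x hx
    have t4 : |deriv f (u x)| ≤ M := hMb x (subset_closure hx)
    have t5 : deriv f (u x) ≤ M := (le_abs_self _).trans t4
    have t6 := tr_deriv_nonneg hf (u x)
    have e2 : (fderiv ℝ u' x - fderiv ℝ u x) (c x) = fderiv ℝ u' x (c x) - fderiv ℝ u x (c x) := rfl
    rw [e2]
    have k1 : l * deriv f (u x) * e ≤ l' - l := by
      calc l * deriv f (u x) * e ≤ l * M * e := by gcongr
        _ = e * (l * M) := by ring
        _ ≤ _ := heM
    have k2 : (l' - l) * 1 ≤ (l' - l) * f (u' x) := by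
      apply mul_le_mul_of_nonneg_left t2
      linarith
    have k3 : l * (f (u x) + deriv f (u x) * (u' x - u x)) ≤ l * f (u' x) := by gcongr
    show l * deriv f (u x) * (u' x - u x + e) ≤ _
    nlinarith

theorem t_MAIN0 (hD : S_DIVG) (hS : S_STAB) : S_MAIN0 := by
  intro n Ω c B f l l' u u' hΩ hb hc hf hl hll hu hu' hle y hy ε hε hy0
  have hA : Ad Ω u := hu.toAd
  obtain ⟨z, hz, hzpos, hzle⟩ := supersol hΩ hb hf hl hll hu hu' hle
  set y2 : ℝ → ℝ := fun s => y s ^ 2 with hy2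
  have hy2c : Continuous y2 := hy.pow 2
  have hy20 : ∀ s, s ≤ ε → y2 s = 0 := fun s hs => by simp [hy2, hy0 s hs]
  have hy2n : ∀ s, 0 ≤ y2 s := fun s => sq_nonneg _
  set p : ℝ → ℝ := PP y with hp
  set g : ℝ → ℝ := PP y2 with hg
  set G : ℝ → ℝ := PP g with hG
  have pc : Continuous p := PP_cont hy
  have gc : Continuous g := PP_cont hy2c
  have Gc : Continuous G := PP_cont gc
  have p0 : ∀ t, t ≤ ε → p t = 0 := fun t ht => PP_zero hε hy0 ht
  have g0 : ∀ t, t ≤ ε → g t = 0 := fun t ht => PP_zero hε hy20 ht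
  have G0 : ∀ t, t ≤ ε → G t = 0 := fun t ht => PP_zero hε g0 ht
  have gn : ∀ t, 0 ≤ t → 0 ≤ g t := fun t ht => PP_nonneg (fun s _ => hy2n s) ht
  have Gn : ∀ t, 0 ≤ t → 0 ≤ G t := fun t ht => PP_nonneg gn ht
  have pd1 : ∀ t, HasDerivAt p (y t) t := PP_hasDeriv hy
  have gd1 : ∀ t, HasDerivAt g (y2 t) t := PP_hasDeriv hy2c
  have Gd1 : ∀ t, HasDerivAt G (g t) t := PP_hasDeriv gc
  have p0' : ∀ t, t < ε → p t = 0 := fun t ht => p0 t ht.le
  have g0' : ∀ t, t < ε → g t = 0 := fun t ht => g0 t ht.le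
  have G0' : ∀ t, t < ε → G t = 0 := fun t ht => G0 t ht.le
  -- the three compositions
  set φ : E n → ℝ := H947R3.cmp Ω p u with hφdef
  set γ : E n → ℝ := H947R3.cmp Ω g u with hγdef
  set Γ : E n → ℝ := H947R3.cmp Ω G u with hΓdef
  have φ1 : ContDiff ℝ 1 φ := contDiff_cmp hΩ hb hA hε p0' (contDiff_one_of hy pd1)
  have γ1 : ContDiff ℝ 1 γ := contDiff_cmp hΩ hb hA hε g0' (contDiff_one_of hy2c gd1)
  have Γ1 : ContDiff ℝ 1 Γ := contDiff_cmp hΩ hb hA hε G0' (contDiff_one_of gc Gd1)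
  have φc : HasCompactSupport φ := hasCompactSupport_cmp hΩ hb hA hε p0'
  have γc : HasCompactSupport γ := hasCompactSupport_cmp hΩ hb hA hε g0'
  have Γc : HasCompactSupport Γ := hasCompactSupport_cmp hΩ hb hA hε G0'
  have φs : tsupport φ ⊆ Ω := tsupport_cmp_subset hΩ hb hA hε p0'
  have γs : tsupport γ ⊆ Ω := tsupport_cmp_subset hΩ hb hA hε g0'
  have Γs : tsupport Γ ⊆ Ω := tsupport_cmp_subset hΩ hb hA hε G0'
  have φin : ∀ x ∈ Ω, φ x = p (u x) := fun x hx => cmp_mem hx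
  have γin : ∀ x ∈ Ω, γ x = g (u x) := fun x hx => cmp_mem hx
  have Γin : ∀ x ∈ Ω, Γ x = G (u x) := fun x hx => cmp_mem hx
  have φout : ∀ x, x ∉ Ω → φ x = 0 := fun x hx => cmp_notMem hx
  have γout : ∀ x, x ∉ Ω → γ x = 0 := fun x hx => cmp_notMem hx
  have Γout : ∀ x, x ∉ Ω → Γ x = 0 := fun x hx => cmp_notMem hx
  have Γnn : ∀ x, 0 ≤ Γ x := by
    intro x
    by_cases hx : x ∈ Ω
    · rw [Γin x hx]; exact Gn _ (hu.nonneg x hx)
    · rw [Γout x hx]
  have φ2c : HasCompactSupport (fun x => φ x ^ 2) := by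
    have : HasCompactSupport (fun x => φ x * φ x) := φc.mul_right
    simpa [sq] using this
  have φ2s : tsupport (fun x => φ x ^ 2) ⊆ Ω := by
    have : tsupport (fun x => φ x * φ x) ⊆ tsupport φ := tsupport_mul_subset_left
    have h2 : (fun x => φ x ^ 2) = fun x => φ x * φ x := by funext x; ring
    rw [h2]; exact this.trans φs
  have φ2cont : Continuous (fun x => φ x ^ 2) := φ1.continuous.pow 2
  -- continuity on Ω
  have uc : ContinuousOn u Ω := hu.c2.continuousOn
  have Vc : ContinuousOn (fun x => l * deriv f (u x)) Ω :=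
    continuousOn_const.mul ((tr_cont_deriv hf).comp_continuousOn uc)
  have fc : ContinuousOn (fun x => f (u x)) Ω := (tr_cont hf).comp_continuousOn uc
  -- integrability
  have I1 : Integrable (fun x => (l * deriv f (u x)) * φ x ^ 2) :=
    integrable_mul_of_tsupport hΩ Vc φ2cont φ2c φ2s
  have I2 : Integrable (fun x => φ x ^ 2) := φ2cont.integrable_of_hasCompactSupport φ2c
  have I3 : Integrable (fun x => f (u x) * γ x) :=
    integrable_mul_of_tsupport hΩ fc γ1.continuous γc γs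
  have I4 : Integrable Γ := Γ1.continuous.integrable_of_hasCompactSupport Γc
  obtain ⟨I5, I6, hdiv⟩ := hD n Ω c Γ hΩ hc.c1 Γ1 Γc Γs
  -- stability
  have st := hS n Ω c B z (fun x => l * deriv f (u x)) φ hΩ hc hz hzpos Vc hzle φ1 φc φs
  -- energy
  have hibp := ibp hΩ hu.c2 γ1 γc γs
  have e1 : (fun x => ∑ i, (pd φ i x) ^ 2) = fun x => ∑ i, pd u i x * pd γ i x := by
    funext x
    refine Finset.sum_congr rfl fun i _ => ?_
    by_cases hx : x ∈ Ω
    · rw [pd_cmp hΩ hA hx (pd1 (u x)) i, pd_cmp hΩ hA hx (gd1 (u x)) i]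
      simp only [hy2]
      ring
    · rw [pd_eq_zero_of_notMem (fun h => hx (φs h)) i, pd_eq_zero_of_notMem (fun h => hx (γs h)) i]
      ring
  have e2 : (fun x => Δ u x * γ x) = fun x => fderiv ℝ Γ x (c x) - l * (f (u x) * γ x) := by
    funext x
    by_cases hx : x ∈ Ω
    · rw [fderiv_cmp hΩ hA hx (Gd1 (u x))]
      have h3 := hu.eq x hx
      have h4 : (g (u x) • fderiv ℝ u x) (c x) = g (u x) * fderiv ℝ u x (c x) := rfl
      rw [h4, γin x hx]
      have h5 : Δ u x = fderiv ℝ u x (c x) - l * f (u x) := by linarith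
      rw [h5]; ring
    · rw [γout x hx, fderiv_of_notMem_tsupport _ (fun h => hx (Γs h))]
      simp
  rw [e1, hibp, e2, integral_sub I5 (I3.const_mul l), hdiv, integral_const_mul] at st
  -- the bound of the divergence term
  have hdvle : ∫ x, dv c x * Γ x ≤ ∫ x, (n * B) * Γ x := by
    apply integral_mono I6 (I4.const_mul _)
    intro x
    show dv c x * Γ x ≤ (n * B) * Γ x
    by_cases hx : x ∈ Ω
    · exact mul_le_mul_of_nonneg_right ((le_abs_self _).trans (dv_le hc hx)) (Γnn x)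
    · rw [Γout x hx]; simp
  rw [integral_const_mul] at hdvle
  -- conversion to set integrals
  have L : l * ∫ x in Ω, (deriv f (u x) * p (u x) ^ 2 - f (u x) * g (u x)) =
      (∫ x, (l * deriv f (u x)) * φ x ^ 2) - l * ∫ x, f (u x) * γ x := by
    have h6 : ∫ x in Ω, (deriv f (u x) * p (u x) ^ 2 - f (u x) * g (u x)) =
        ∫ x, (deriv f (u x) * φ x ^ 2 - f (u x) * γ x) := by
      rw [← setIntegral_eq_integral_of_forall_compl_eq_zero (s := Ω)
        (f := fun x => deriv f (u x) * φ x ^ 2 - f (u x) * γ x)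
        (fun x hx => by simp [φout x hx, γout x hx])]
      apply setIntegral_congr_fun hΩ.measurableSet
      intro x hx
      simp only [φin x hx, γin x hx]
    rw [h6, ← integral_const_mul, ← integral_const_mul, ← integral_sub I1 (I3.const_mul l)]
    congr 1
    funext x
    ring
  have R : ∫ x in Ω, (p (u x) ^ 2 + G (u x)) = (∫ x, φ x ^ 2) + ∫ x, Γ x := by
    rw [← integral_add I2 I4, ← setIntegral_eq_integral_of_forall_compl_eq_zero (s := Ω)
        (f := fun x => φ x ^ 2 + Γ x) (fun x hx => by simp [φout x hx, Γout x hx])]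
    apply setIntegral_congr_fun hΩ.measurableSet
    intro x hx
    simp only [φin x hx, Γin x hx]
  show l * ∫ x in Ω, (deriv f (u x) * p (u x) ^ 2 - f (u x) * g (u x)) ≤
    (n * B + B ^ 2) * ∫ x in Ω, (p (u x) ^ 2 + G (u x))
  rw [L, R]
  have n1 : 0 ≤ ∫ x, φ x ^ 2 := integral_nonneg fun x => sq_nonneg _
  have n2 : 0 ≤ ∫ x, Γ x := integral_nonneg Γnn
  have hB := hc.nonneg
  have hn : (0 : ℝ) ≤ n := Nat.cast_nonneg n
  have k1 : (B ^ 2 / 4 + n * B / 2) * ∫ x, φ x ^ 2 ≤ (n * B + B ^ 2) * ∫ x, φ x ^ 2 := by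
    apply mul_le_mul_of_nonneg_right _ n1
    have : 0 ≤ (n : ℝ) * B := mul_nonneg hn hB
    nlinarith [sq_nonneg B]
  have k2 : (n * B) * ∫ x, Γ x ≤ (n * B + B ^ 2) * ∫ x, Γ x := by
    apply mul_le_mul_of_nonneg_right _ n2
    nlinarith [sq_nonneg B]
  nlinarith

end Pool.Agent.Y270.AR
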