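import Pool.Agent.Y270.AR.Base
import Pool.Agent.H947R3.Lev

/-! The weighted `L¹` bound, statement `S_WL` of `Pool.Agent.Y520.AR.Stm` (author: helper270). -/

set_option autoImplicit false

open MeasureTheory Set Filter Topology Laplacian InnerProductSpace
open scoped ContDiff

namespace Pool.Agent.Y270.AR

open Pool.Agent.H947R3 Pool.Agent.Y520.AR

variable {n : ℕ}

/-! ### the convex cutoff -/

/-- the derivative of the convex cutoff -/
noncomputable def T1 (e s : ℝ) : ℝ := SS (s / e - 1)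

/-- the convex cutoff -/
noncomputable def T0 (e : ℝ) : ℝ → ℝ := PP (T1 e)

/-- the second derivative of the convex cutoff -/
noncomputable def T2 (e s : ℝ) : ℝ := bS (s / e - 1) * (1 / e)

lemma SS_cont : Continuous SS := continuous_iff_continuousAt.2 fun t => (SS_deriv t).continuousAt

lemma T1_cont (e : ℝ) : Continuous (T1 e) := by
  unfold T1
  exact SS_cont.comp (by fun_prop)

lemma T2_cont (e : ℝ) : Continuous (T2 e) := by
  unfold T2
  exact (bS_cont.comp (by fun_prop)).mul continuous_const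

lemma T1_deriv (e s : ℝ) : HasDerivAt (T1 e) (T2 e s) s := by
  have h1 : HasDerivAt (fun s : ℝ => s / e - 1) (1 / e) s :=
    ((hasDerivAt_id s).div_const e).sub_const 1
  exact (SS_deriv (s / e - 1)).comp s h1

lemma T0_deriv (e s : ℝ) : HasDerivAt (T0 e) (T1 e s) s := PP_hasDeriv (T1_cont e) s

lemma T1_zero {e s : ℝ} (he : 0 < e) (hs : s ≤ e) : T1 e s = 0 := by
  apply SS_zero
  have : s / e ≤ 1 := (div_le_one he).2 hs
  linarith

lemma T1_nn (e s : ℝ) : 0 ≤ T1 e s := SS_nn _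

lemma T1_le (e s : ℝ) : T1 e s ≤ 1 := SS_le _

lemma T1_one {e s : ℝ} (he : 0 < e) (hs : 2 * e ≤ s) : T1 e s = 1 := by
  apply SS_one
  have : 2 ≤ s / e := (le_div_iff₀ he).2 hs
  linarith

lemma T2_nn {e : ℝ} (he : 0 < e) (s : ℝ) : 0 ≤ T2 e s :=
  mul_nonneg (bS_nn _) (by positivity)

lemma T0_zero {e s : ℝ} (he : 0 < e) (hs : s ≤ e) : T0 e s = 0 :=
  PP_zero he (fun _ ht => T1_zero he ht) hs

lemma T0_nn {e s : ℝ} (hs : 0 ≤ s) : 0 ≤ T0 e s := PP_nonneg (fun t _ => T1_nn e t) hs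

lemma T0_le {e s : ℝ} (hs : 0 ≤ s) : T0 e s ≤ s := by
  unfold T0 PP
  have h1 : ∫ t in (0 : ℝ)..s, T1 e t ≤ ∫ t in (0 : ℝ)..s, (1 : ℝ) := by
    apply intervalIntegral.integral_mono_on hs ((T1_cont e).intervalIntegrable _ _)
      intervalIntegrable_const
    intro t _
    exact T1_le e t
  simpa using h1

lemma T0_ge {e s : ℝ} (he : 0 < e) (hs : 0 ≤ s) : s - 2 * e ≤ T0 e s := by
  rcases le_total s (2 * e) with h | h
  · have := T0_nn (e := e) hs
    linarith
  · have h1 : T0 e s = T0 e (2 * e) + ∫ t in (2 * e)..s, T1 e t := by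
      unfold T0 PP
      rw [intervalIntegral.integral_add_adjacent_intervals] <;>
        exact (T1_cont e).intervalIntegrable _ _
    have h2 : ∫ t in (2 * e)..s, T1 e t = ∫ t in (2 * e)..s, (1 : ℝ) := by
      apply intervalIntegral.integral_congr
      intro t ht
      rw [uIcc_of_le h] at ht
      exact T1_one he ht.1
    have h3 : 0 ≤ T0 e (2 * e) := T0_nn (by positivity)
    rw [h1, h2]
    simp only [intervalIntegral.integral_const, smul_eq_mul, mul_one]
    linarith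

/-! ### the subsolution -/

/-- `d + K d²` -/
noncomputable def qd (K : ℝ) (d : E n → ℝ) (x : E n) : ℝ := d x + K * d x ^ 2

section
variable {d : E n → ℝ} (hd : ContDiff ℝ 2 d) (K : ℝ)
include hd

lemma qd_contDiff : ContDiff ℝ 2 (qd K d) := by
  unfold qd
  exact hd.add (contDiff_const.mul (hd.pow 2))

lemma qd_fderiv (x : E n) : fderiv ℝ (qd K d) x = (1 + 2 * K * d x) • fderiv ℝ d x := by
  have h1 : HasFDerivAt d (fderiv ℝ d x) x := (hd.differentiable (by norm_num) x).hasFDerivAt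
  have h2 : HasDerivAt (fun s : ℝ => s + K * s ^ 2) (1 + 2 * K * d x) (d x) := by
    have h2a : HasDerivAt (fun s : ℝ => s ^ 2) (2 * d x) (d x) := by
      simpa using hasDerivAt_pow 2 (d x)
    have h2b := (hasDerivAt_id (d x)).add (h2a.const_mul K)
    have e3 : (1 + 2 * K * d x : ℝ) = 1 + K * (2 * d x) := by ring
    rw [e3]
    exact h2b
  have h3 := h2.comp_hasFDerivAt x h1
  exact h3.fderiv

lemma qd_pd (i : Fin n) : pd (qd K d) i = fun x => (1 + 2 * K * d x) * pd d i x := by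
  funext x
  unfold pd
  rw [qd_fderiv hd K x]
  simp

lemma qd_lap (x : E n) : Δ (qd K d) x =
    (1 + 2 * K * d x) * Δ d x + 2 * K * ∑ i, (pd d i x) ^ 2 := by
  rw [lap_eq (qd_contDiff hd K).contDiffAt, lap_eq hd.contDiffAt, Finset.mul_sum, Finset.mul_sum,
    ← Finset.sum_add_distrib]
  refine Finset.sum_congr rfl fun i _ => ?_
  rw [qd_pd hd K i]
  have h1 : HasFDerivAt d (fderiv ℝ d x) x := (hd.differentiable (by norm_num) x).hasFDerivAt
  have h2 : ContDiff ℝ 1 (pd d i) := by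
    have := contDiffOn_one_pd isOpen_univ hd.contDiffOn i
    exact contDiffOn_univ.1 this
  have h3 : HasFDerivAt (pd d i) (fderiv ℝ (pd d i) x) x :=
    (h2.differentiable (by norm_num) x).hasFDerivAt
  have h4 : HasFDerivAt (fun y => 1 + 2 * K * d y) ((2 * K) • fderiv ℝ d x) x :=
    (h1.const_mul (2 * K)).const_add 1
  have h5 := h4.mul h3
  have h6 : pd (fun y => (1 + 2 * K * d y) * pd d i y) i x =
      ((1 + 2 * K * d x) • fderiv ℝ (pd d i) x + pd d i x • ((2 * K) • fderiv ℝ d x)) (bv i) := by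
    conv_lhs => unfold pd
    exact congrArg (fun L : E n →L[ℝ] ℝ => L (bv i)) h5.fderiv
  rw [h6]
  simp only [ContinuousLinearMap.add_apply, ContinuousLinearMap.smul_apply, smul_eq_mul]
  have h7 : fderiv ℝ d x (bv i) = pd d i x := rfl
  have h8 : fderiv ℝ (pd d i) x (bv i) = pd (pd d i) i x := rfl
  rw [h7, h8]
  ring

end

/-- the subsolution of the adjoint operator -/
lemma exists_sub {Ω : Set (E n)} {d : E n → ℝ} {c : E n → E n} {B : ℝ} (hd : Dom Ω d)
    (hc : Drift Ω c B) (hne : Ω.Nonempty) : ∃ K Lam : ℝ, 0 ≤ K ∧ 0 ≤ Lam ∧ ∀ x ∈ Ω,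
      -(Δ (qd K d) x) - fderiv ℝ (qd K d) x (c x) ≤ Lam * qd K d x := by
  have hcomp : IsCompact (closure Ω) := hd.bounded.isCompact_closure
  have hcl : ∀ x ∈ closure Ω, 0 ≤ d x := by
    intro x hx
    have h1 : closure Ω ⊆ d ⁻¹' (Ici 0) :=
      closure_minimal (fun y hy => ((hd.mem y).1 hy).le)
        (isClosed_Ici.preimage hd.c2.continuous)
    exact h1 hx
  have hfd : Continuous (fderiv ℝ d) := hd.c2.continuous_fderiv (by norm_num)
  obtain ⟨x0, hx0⟩ := hne
  -- the lower bound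
  obtain ⟨y, hy, hmin⟩ := hcomp.exists_isMinOn ⟨x0, subset_closure hx0⟩
    (f := fun x => d x + ‖fderiv ℝ d x‖) (hd.c2.continuous.add hfd.norm).continuousOn
  have hypos : 0 < d y + ‖fderiv ℝ d y‖ := by
    by_cases hyΩ : y ∈ Ω
    · have := (hd.mem y).1 hyΩ
      have := norm_nonneg (fderiv ℝ d y)
      linarith
    · have hfr : y ∈ frontier Ω := ⟨hy, fun h => hyΩ (interior_subset h)⟩
      have h1 := norm_pos_iff.2 (hd.grad y hfr)
      have h2 := hcl y hy
      linarith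
  obtain ⟨c0, hc0, hc0'⟩ : ∃ c0 : ℝ, 0 < c0 ∧ ∀ x ∈ closure Ω, 2 * c0 ≤ d x + ‖fderiv ℝ d x‖ := by
    refine ⟨(d y + ‖fderiv ℝ d y‖) / 2, by positivity, fun x hx => ?_⟩
    have : d y + ‖fderiv ℝ d y‖ ≤ d x + ‖fderiv ℝ d x‖ := hmin hx
    linarith
  -- the upper bound
  have hlapc : Continuous (Δ d) := by
    have := continuousOn_lap isOpen_univ hd.c2.contDiffOn
    exact continuousOn_univ.1 this
  obtain ⟨C, hC⟩ := hcomp.exists_bound_of_continuousOn
    (f := fun x => |Δ d x| + B * ‖fderiv ℝ d x‖)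
    (hlapc.abs.add (continuous_const.mul hfd.norm)).continuousOn
  set C2 : ℝ := max C 0 + 1 with hC2
  have C2pos : 0 < C2 := by positivity
  have hC2' : ∀ x ∈ closure Ω, |Δ d x| + B * ‖fderiv ℝ d x‖ ≤ C2 := by
    intro x hx
    have h1 := hC x hx
    have h2 := le_abs_self (|Δ d x| + B * ‖fderiv ℝ d x‖)
    rw [Real.norm_eq_abs] at h1
    have h3 := le_max_left C 0
    linarith
  set K : ℝ := C2 / c0 ^ 2 with hK
  have Kpos : 0 < K := by positivity
  set δ : ℝ := min c0 (1 / (2 * K)) with hδ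
  have δpos : 0 < δ := lt_min hc0 (by positivity)
  refine ⟨K, C2 * (1 / δ + 2 * K), Kpos.le, by positivity, fun x hx => ?_⟩
  have hxc := subset_closure hx
  have hdx : 0 < d x := (hd.mem x).1 hx
  rw [qd_lap hd.c2, qd_fderiv hd.c2]
  have e1 : ((1 + 2 * K * d x) • fderiv ℝ d x) (c x) = (1 + 2 * K * d x) * fderiv ℝ d x (c x) := rfl
  rw [e1]
  have p1 : |fderiv ℝ d x (c x)| ≤ B * ‖fderiv ℝ d x‖ := by
    have h1 := (fderiv ℝ d x).le_opNorm (c x)
    rw [Real.norm_eq_abs] at h1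
    have h2 : ‖fderiv ℝ d x‖ * ‖c x‖ ≤ ‖fderiv ℝ d x‖ * B :=
      mul_le_mul_of_nonneg_left (hc.bd x hx) (norm_nonneg _)
    linarith
  have p2 := hC2' x hxc
  have p3 := hc0' x hxc
  have q1 : ‖fderiv ℝ d x‖ ^ 2 ≤ ∑ i, (pd d i x) ^ 2 := norm_sq_le_sum (fderiv ℝ d x)
  have a1 := neg_abs_le (Δ d x)
  have a2 := neg_abs_le (fderiv ℝ d x (c x))
  have a3 : -(Δ d x) - fderiv ℝ d x (c x) ≤ C2 := by linarith
  have a4 : 0 < 1 + 2 * K * d x := by positivity
  have a5 : (1 + 2 * K * d x) * (-(Δ d x) - fderiv ℝ d x (c x)) ≤ (1 + 2 * K * d x) * C2 :=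
    mul_le_mul_of_nonneg_left a3 a4.le
  have q0 : 0 ≤ ∑ i, (pd d i x) ^ 2 := Finset.sum_nonneg fun i _ => sq_nonneg _
  have hqd : d x ≤ qd K d x := by
    unfold qd
    have : 0 ≤ K * d x ^ 2 := by positivity
    linarith
  rcases le_or_gt (d x) δ with h | h
  · have h1 : d x ≤ c0 := h.trans (min_le_left _ _)
    have h2 : d x ≤ 1 / (2 * K) := h.trans (min_le_right _ _)
    have h3 : 2 * K * d x ≤ 1 := by
      rw [le_div_iff₀ (by positivity)] at h2
      linarith
    have h4 : c0 ^ 2 ≤ ‖fderiv ℝ d x‖ ^ 2 := by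
      apply pow_le_pow_left₀ hc0.le
      linarith
    have h5 : K * c0 ^ 2 = C2 := by rw [hK]; field_simp
    have h6 : 2 * K * c0 ^ 2 ≤ 2 * K * ∑ i, (pd d i x) ^ 2 := by
      apply mul_le_mul_of_nonneg_left (h4.trans q1) (by positivity)
    have h7 : (1 + 2 * K * d x) * C2 ≤ 2 * C2 :=
      mul_le_mul_of_nonneg_right (by linarith) C2pos.le
    have h8 : 0 ≤ C2 * (1 / δ + 2 * K) * qd K d x := by
      have : 0 ≤ qd K d x := hdx.le.trans hqd
      positivity
    nlinarith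
  · have h1 : 1 ≤ d x / δ := (one_le_div δpos).2 h.le
    have h2 : (1 + 2 * K * d x) * C2 ≤ C2 * (1 / δ + 2 * K) * d x := by
      have : C2 * (1 / δ + 2 * K) * d x = (d x / δ + 2 * K * d x) * C2 := by ring
      rw [this]
      apply mul_le_mul_of_nonneg_right _ C2pos.le
      linarith
    have h3 : C2 * (1 / δ + 2 * K) * d x ≤ C2 * (1 / δ + 2 * K) * qd K d x :=
      mul_le_mul_of_nonneg_left hqd (by positivity)
    have h4 : 0 ≤ 2 * K * ∑ i, (pd d i x) ^ 2 := by positivity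
    nlinarith

/-- the tested inequality -/
lemma tested {Ω : Set (E n)} (hΩ : IsOpen Ω) (hb : Bornology.IsBounded Ω) (hD : S_DIVG)
    {c : E n → E n} {B : ℝ} (hc : Drift Ω c B) {f : ℝ → ℝ} (hf : TypeR f) {l : ℝ}
    {u : E n → ℝ} (hu : Sol Ω c f l u) {φ : E n → ℝ} (hφ : Ad Ω φ) {Lam : ℝ} (hLam : 0 ≤ Lam)
    (hsub : ∀ x ∈ Ω, -(Δ φ x) - fderiv ℝ φ x (c x) ≤ Lam * φ x) {e : ℝ} (he : 0 < e) :
    l * ∫ x in Ω, f (u x) * T0 e (φ x) ≤ (Lam + n * B) * ∫ x in Ω, u x * φ x := by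
  have t0z : ∀ t, t < e → T0 e t = 0 := fun t ht => T0_zero he ht.le
  have t1z : ∀ t, t < e → T1 e t = 0 := fun t ht => T1_zero he ht.le
  set ψ : E n → ℝ := H947R3.cmp Ω (T0 e) φ with hψ
  set χ : E n → ℝ := H947R3.cmp Ω (T1 e) φ with hχ
  have ψ1 : ContDiff ℝ 1 ψ :=
    contDiff_cmp hΩ hb hφ he t0z (contDiff_one_of (T1_cont e) (T0_deriv e))
  have χ1 : ContDiff ℝ 1 χ :=
    contDiff_cmp hΩ hb hφ he t1z (contDiff_one_of (T2_cont e) (T1_deriv e))
  have ψc : HasCompactSupport ψ := hasCompactSupport_cmp hΩ hb hφ he t0z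
  have χc : HasCompactSupport χ := hasCompactSupport_cmp hΩ hb hφ he t1z
  have ψs : tsupport ψ ⊆ Ω := tsupport_cmp_subset hΩ hb hφ he t0z
  have χs : tsupport χ ⊆ Ω := tsupport_cmp_subset hΩ hb hφ he t1z
  have ψin : ∀ x ∈ Ω, ψ x = T0 e (φ x) := fun x hx => cmp_mem hx
  have χin : ∀ x ∈ Ω, χ x = T1 e (φ x) := fun x hx => cmp_mem hx
  have ψout : ∀ x, x ∉ Ω → ψ x = 0 := fun x hx => cmp_notMem hx
  have χout : ∀ x, x ∉ Ω → χ x = 0 := fun x hx => cmp_notMem hx
  have uc : ContinuousOn u Ω := hu.c2.continuousOn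
  -- products with `u`
  have mulu : ∀ η : E n → ℝ, ContDiff ℝ 1 η → tsupport η ⊆ Ω →
      ContDiff ℝ 1 (fun x => u x * η x) := by
    intro η hη hs
    apply contDiff_of_tsupp
    intro x hx
    have hxΩ := hs (tsupport_mul_subset_right hx)
    have h1 : ContDiffAt ℝ 1 u x := (hu.c2.contDiffAt (hΩ.mem_nhds hxΩ)).of_le (by norm_num)
    exact h1.mul hη.contDiffAt
  have muls : ∀ η : E n → ℝ, tsupport (fun x => u x * η x) ⊆ tsupport η := fun η =>
    tsupport_mul_subset_right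
  set ζ : E n → ℝ := fun x => u x * χ x with hζ
  have ζ1 : ContDiff ℝ 1 ζ := mulu χ χ1 χs
  have ζc : HasCompactSupport ζ := χc.mul_left
  have ζs : tsupport ζ ⊆ Ω := (muls χ).trans χs
  set ξ : E n → ℝ := fun x => u x * ψ x with hξ
  have ξ1 : ContDiff ℝ 1 ξ := mulu ψ ψ1 ψs
  have ξc : HasCompactSupport ξ := ψc.mul_left
  have ξs : tsupport ξ ⊆ Ω := (muls ψ).trans ψs
  have ud : ∀ x ∈ Ω, DifferentiableAt ℝ u x := fun x hx =>
    (hu.c2.contDiffAt (hΩ.mem_nhds hx)).differentiableAt (by norm_num)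
  -- the three identities
  have i1 := ibp hΩ hu.c2 ψ1 ψc ψs
  have i2 := ibp hΩ hφ.c2 ζ1 ζc ζs
  obtain ⟨J1, J2, i3⟩ := hD n Ω c ξ hΩ hc.c1 ξ1 ξc ξs
  -- integrability
  have K1 : Integrable (fun x => f (u x) * ψ x) :=
    integrable_mul_of_tsupport hΩ ((tr_cont hf).comp_continuousOn uc) ψ1.continuous ψc ψs
  have K2 : Integrable (fun x => Δ u x * ψ x) :=
    integrable_mul_of_tsupport hΩ (continuousOn_lap hΩ hu.c2) ψ1.continuous ψc ψs
  have K3 : Integrable (fun x => ∑ i, pd u i x * pd ψ i x) := by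
    refine integrable_finsetSum _ fun i _ => ?_
    exact integrable_mul_of_tsupport hΩ (contDiffOn_one_pd hΩ hu.c2 i).continuousOn
      (continuous_pd ψ1 i) (hasCompactSupport_pd ψc i) ((tsupport_pd_subset ψ i).trans ψs)
  have K4 : Integrable (fun x => ∑ i, pd φ i x * pd ζ i x) := by
    refine integrable_finsetSum _ fun i _ => ?_
    exact integrable_mul_of_tsupport hΩ (contDiffOn_one_pd hΩ hφ.c2 i).continuousOn
      (continuous_pd ζ1 i) (hasCompactSupport_pd ζc i) ((tsupport_pd_subset ζ i).trans ζs)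
  have K5 : Integrable (fun x => Δ φ x * ζ x) :=
    integrable_mul_of_tsupport hΩ (continuousOn_lap hΩ hφ.c2) ζ1.continuous ζc ζs
  have cu : ContinuousOn (fun x => fderiv ℝ u x (c x)) Ω :=
    (hu.c2.continuousOn_fderiv_of_isOpen hΩ (by norm_num)).clm_apply hc.c1.continuousOn
  have cφ : ContinuousOn (fun x => fderiv ℝ φ x (c x)) Ω :=
    (hφ.c2.continuousOn_fderiv_of_isOpen hΩ (by norm_num)).clm_apply hc.c1.continuousOn
  have K6 : Integrable (fun x => fderiv ℝ u x (c x) * ψ x) :=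
    integrable_mul_of_tsupport hΩ cu ψ1.continuous ψc ψs
  have K7 : Integrable (fun x => fderiv ℝ φ x (c x) * ζ x) :=
    integrable_mul_of_tsupport hΩ cφ ζ1.continuous ζc ζs
  -- the gradient term
  have g1 : ∫ x, ∑ i, pd u i x * pd ψ i x ≤ ∫ x, ∑ i, pd φ i x * pd ζ i x := by
    apply integral_mono K3 K4
    intro x
    apply Finset.sum_le_sum
    intro i _
    by_cases hx : x ∈ Ω
    · rw [pd_cmp hΩ hφ hx (T0_deriv e (φ x)) i]
      have h1 : HasFDerivAt ζ (u x • fderiv ℝ χ x + χ x • fderiv ℝ u x) x :=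
        (ud x hx).hasFDerivAt.mul (χ1.differentiable (by norm_num) x).hasFDerivAt
      have h2 : pd ζ i x = u x * pd χ i x + χ x * pd u i x := by
        unfold pd
        rw [h1.fderiv]
        simp
      rw [h2, pd_cmp hΩ hφ hx (T1_deriv e (φ x)) i, χin x hx]
      have h3 : 0 ≤ u x * T2 e (φ x) * (pd φ i x) ^ 2 :=
        mul_nonneg (mul_nonneg (hu.nonneg x hx) (T2_nn he _)) (sq_nonneg _)
      nlinarith
    · rw [pd_eq_zero_of_notMem (fun h => hx (ψs h)) i, pd_eq_zero_of_notMem (fun h => hx (ζs h)) i]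
      simp
  -- the drift term
  have g2 : (fun x => fderiv ℝ ξ x (c x)) = fun x => fderiv ℝ u x (c x) * ψ x +
      fderiv ℝ φ x (c x) * ζ x := by
    funext x
    by_cases hx : x ∈ Ω
    · have h1 : HasFDerivAt ξ (u x • fderiv ℝ ψ x + ψ x • fderiv ℝ u x) x :=
        (ud x hx).hasFDerivAt.mul (ψ1.differentiable (by norm_num) x).hasFDerivAt
      rw [h1.fderiv, fderiv_cmp hΩ hφ hx (T0_deriv e (φ x))]
      simp only [ContinuousLinearMap.add_apply, ContinuousLinearMap.smul_apply, smul_eq_mul, hζ,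
        χin x hx]
      ring
    · rw [fderiv_of_notMem_tsupport _ (fun h => hx (ξs h)), ψout x hx]
      simp [hζ, χout x hx]
  rw [g2, integral_add K6 K7] at i3
  -- the equation
  have g3 : l * ∫ x, f (u x) * ψ x = - (∫ x, Δ u x * ψ x) + ∫ x, fderiv ℝ u x (c x) * ψ x := by
    have q1 : ∫ x, (-(Δ u x * ψ x) + fderiv ℝ u x (c x) * ψ x) =
        (∫ x, -(Δ u x * ψ x)) + ∫ x, fderiv ℝ u x (c x) * ψ x := integral_add K2.neg K6
    rw [← integral_const_mul, ← integral_neg, ← q1]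
    congr 1
    funext x
    by_cases hx : x ∈ Ω
    · have := hu.eq x hx
      have h2 : l * (f (u x) * ψ x) = (l * f (u x)) * ψ x := by ring
      rw [h2, ← this]; ring
    · simp [ψout x hx]
  -- bounds on Ω
  have hdv : Integrable (fun x => dv c x * ξ x) := J2
  have total : l * ∫ x, f (u x) * ψ x ≤
      ∫ x, (-(Δ φ x * ζ x) - fderiv ℝ φ x (c x) * ζ x - dv c x * ξ x) := by
    have q1 : ∫ x, (-(Δ φ x * ζ x) - fderiv ℝ φ x (c x) * ζ x - dv c x * ξ x) =
        (∫ x, (-(Δ φ x * ζ x) - fderiv ℝ φ x (c x) * ζ x)) - ∫ x, dv c x * ξ x :=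
      integral_sub (K5.neg.sub K7) hdv
    have q2 : ∫ x, (-(Δ φ x * ζ x) - fderiv ℝ φ x (c x) * ζ x) =
        (∫ x, -(Δ φ x * ζ x)) - ∫ x, fderiv ℝ φ x (c x) * ζ x := integral_sub K5.neg K7
    rw [q1, q2, integral_neg]
    linarith
  have cl : ∀ h : E n → ℝ, ContinuousOn h (closure Ω) → IntegrableOn h Ω := fun h hh =>
    (hh.integrableOn_compact hb.isCompact_closure).mono_set subset_closure
  have U1 : IntegrableOn (fun x => u x * φ x) Ω := cl _ (hu.cont.mul hφ.cont)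
  have rhs : ∫ x, (-(Δ φ x * ζ x) - fderiv ℝ φ x (c x) * ζ x - dv c x * ξ x) ≤
      ∫ x in Ω, (Lam + n * B) * (u x * φ x) := by
    rw [← setIntegral_eq_integral_of_forall_compl_eq_zero (s := Ω)
      (f := fun x => (-(Δ φ x * ζ x) - fderiv ℝ φ x (c x) * ζ x - dv c x * ξ x))
      (fun x hx => by simp [hζ, hξ, χout x hx, ψout x hx])]
    apply setIntegral_mono_on _ (U1.const_mul _) hΩ.measurableSet
    · intro x hx
      simp only [hζ, hξ, χin x hx, ψin x hx]
      have h1 := hsub x hx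
      have hu0 := hu.nonneg x hx
      have hφ0 := hφ.nonneg x hx
      have h2 := T1_nn e (φ x)
      have h3 := T1_le e (φ x)
      have h4 := T0_nn (e := e) hφ0
      have h5 := T0_le (e := e) hφ0
      have h6 : -(dv c x) ≤ n * B := (neg_le_abs _).trans (dv_le hc hx)
      have h7 : 0 ≤ u x * T1 e (φ x) := mul_nonneg hu0 h2
      have h8 : (-(Δ φ x) - fderiv ℝ φ x (c x)) * (u x * T1 e (φ x)) ≤
          (Lam * φ x) * (u x * T1 e (φ x)) := mul_le_mul_of_nonneg_right h1 h7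
      have h9 : (Lam * φ x) * (u x * T1 e (φ x)) ≤ (Lam * φ x) * (u x * 1) := by
        apply mul_le_mul_of_nonneg_left _ (mul_nonneg hLam hφ0)
        exact mul_le_mul_of_nonneg_left h3 hu0
      have h10 : -(dv c x) * (u x * T0 e (φ x)) ≤ (n * B) * (u x * T0 e (φ x)) :=
        mul_le_mul_of_nonneg_right h6 (mul_nonneg hu0 h4)
      have h11 : (n * B) * (u x * T0 e (φ x)) ≤ (n * B) * (u x * φ x) := by
        apply mul_le_mul_of_nonneg_left _ (mul_nonneg (Nat.cast_nonneg n) hc.nonneg)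
        exact mul_le_mul_of_nonneg_left h5 hu0
      linarith
    · exact ((K5.neg.sub K7).sub hdv).integrableOn
  have L : l * ∫ x in Ω, f (u x) * T0 e (φ x) = l * ∫ x, f (u x) * ψ x := by
    congr 1
    rw [← setIntegral_eq_integral_of_forall_compl_eq_zero (s := Ω)
      (f := fun x => f (u x) * ψ x) (fun x hx => by simp [ψout x hx])]
    apply setIntegral_congr_fun hΩ.measurableSet
    intro x hx
    simp only [ψin x hx]
  rw [integral_const_mul] at rhs
  rw [L]
  exact total.trans rhs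

theorem t_WL (hD : S_DIVG) : S_WL := by
  intro n Ω d c B f l₀ hd hc hf hl₀
  rcases Ω.eq_empty_or_nonempty with hem | hne
  · refine ⟨0, fun l u _ _ => ?_⟩
    simp [hem]
  have hΩ : IsOpen Ω := by
    have : Ω = d ⁻¹' (Ioi 0) := by ext x; exact hd.mem x
    rw [this]
    exact isOpen_Ioi.preimage hd.c2.continuous
  have hb := hd.bounded
  obtain ⟨K, Lam, hK, hLam, hsub⟩ := exists_sub hd hc hne
  have hcl : ∀ x ∈ closure Ω, 0 ≤ d x := by
    intro x hx
    have h1 : closure Ω ⊆ d ⁻¹' (Ici 0) :=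
      closure_minimal (fun y hy => ((hd.mem y).1 hy).le)
        (isClosed_Ici.preimage hd.c2.continuous)
    exact h1 hx
  have hfr : ∀ x ∈ frontier Ω, d x = 0 := by
    intro x hx
    rw [frontier, hΩ.interior_eq] at hx
    have h1 := hcl x hx.1
    have h2 : ¬ 0 < d x := fun h => hx.2 ((hd.mem x).2 h)
    linarith
  set φ : E n → ℝ := qd K d with hφdef
  have φc2 : ContDiff ℝ 2 φ := qd_contDiff hd.c2 K
  have hφ : Ad Ω φ := by
    refine ⟨φc2.contDiffOn, φc2.continuous.continuousOn, fun x hx => ?_, fun x hx => ?_⟩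
    · have := hcl x (subset_closure hx)
      simp only [hφdef, qd]
      positivity
    · simp [hφdef, qd, hfr x hx]
  have hdφ : ∀ x ∈ Ω, d x ≤ φ x := by
    intro x _
    simp only [hφdef, qd]
    have : 0 ≤ K * d x ^ 2 := by positivity
    linarith
  set L1 : ℝ := Lam + n * B with hL1
  have L1n : 0 ≤ L1 := by
    have := mul_nonneg (Nat.cast_nonneg (α := ℝ) n) hc.nonneg
    positivity
  -- superlinearity
  obtain ⟨C0, hC0n, hC0⟩ : ∃ C0 : ℝ, 0 ≤ C0 ∧ ∀ t, 0 ≤ t → L1 * t ≤ (l₀ / 2) * (f t + C0) := by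
    have h1 := hf.superlinear.eventually_ge_atTop (2 * L1 / l₀)
    obtain ⟨t0, ht0⟩ := (h1.and (eventually_gt_atTop 0)).exists_forall_of_atTop
    have t0pos : 0 < t0 := (ht0 t0 le_rfl).2
    refine ⟨2 * L1 * t0 / l₀, by positivity, fun t ht => ?_⟩
    have h3 := tr_one_le hf ht
    rcases le_total t0 t with h | h
    · obtain ⟨h4, h5⟩ := ht0 t h
      rw [div_le_div_iff₀ hl₀ h5] at h4
      have h6 : 0 ≤ 2 * L1 * t0 / l₀ := by positivity
      nlinarith
    · have h4 : (l₀ / 2) * (f t + 2 * L1 * t0 / l₀) = (l₀ / 2) * f t + L1 * t0 := by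
        field_simp
      rw [h4]
      have h5 : L1 * t ≤ L1 * t0 := mul_le_mul_of_nonneg_left h L1n
      have h6 : 0 ≤ (l₀ / 2) * f t := by positivity
      linarith
  refine ⟨C0 * ∫ x in Ω, φ x, fun l u hl hu => ?_⟩
  have cl : ∀ h : E n → ℝ, ContinuousOn h (closure Ω) → IntegrableOn h Ω := fun h hh =>
    (hh.integrableOn_compact hb.isCompact_closure).mono_set subset_closure
  have fuc : ContinuousOn (fun x => f (u x)) (closure Ω) := (tr_cont hf).comp_continuousOn hu.cont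
  have Iφ : IntegrableOn φ Ω := cl _ hφ.cont
  have If : IntegrableOn (fun x => f (u x)) Ω := cl _ fuc
  have Ifφ : IntegrableOn (fun x => f (u x) * φ x) Ω := cl _ (fuc.mul hφ.cont)
  have Ifd : IntegrableOn (fun x => f (u x) * d x) Ω :=
    cl _ (fuc.mul hd.c2.continuous.continuousOn)
  have Iuφ : IntegrableOn (fun x => u x * φ x) Ω := cl _ (hu.cont.mul hφ.cont)
  have lpos : 0 < l := hl₀.trans_le hl
  -- the limit e → 0
  have main : l * ∫ x in Ω, f (u x) * φ x ≤ L1 * ∫ x in Ω, u x * φ x := by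
    apply le_of_forall_pos_le_add
    intro η hη
    set F : ℝ := ∫ x in Ω, f (u x) with hF
    have Fn : 0 ≤ F := setIntegral_nonneg hΩ.measurableSet fun x hx =>
      zero_le_one.trans (tr_one_le hf (hu.nonneg x hx))
    obtain ⟨e, he, heη⟩ : ∃ e : ℝ, 0 < e ∧ l * (2 * e * F) ≤ η := by
      refine ⟨η / (2 * l * (F + 1)), by positivity, ?_⟩
      have : l * (2 * (η / (2 * l * (F + 1))) * F) = η * (F / (F + 1)) := by
        field_simp
      rw [this]
      have h2 : F / (F + 1) ≤ 1 := (div_le_one (by positivity)).2 (by linarith)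
      nlinarith
    have h1 := tested hΩ hb hD hc hf hu hφ hLam hsub he
    have IT : IntegrableOn (fun x => f (u x) * T0 e (φ x)) Ω :=
      cl _ (fuc.mul ((PP_cont (T1_cont e)).comp_continuousOn hφ.cont))
    have h2 : ∫ x in Ω, (f (u x) * φ x - 2 * e * f (u x)) ≤ ∫ x in Ω, f (u x) * T0 e (φ x) := by
      apply setIntegral_mono_on (Ifφ.sub (If.const_mul _)) IT hΩ.measurableSet
      intro x hx
      have h3 := T0_ge he (hφ.nonneg x hx)
      have h4 := tr_one_le hf (hu.nonneg x hx)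
      have h5 : f (u x) * (φ x - 2 * e) ≤ f (u x) * T0 e (φ x) :=
        mul_le_mul_of_nonneg_left h3 (by linarith)
      show f (u x) * φ x - 2 * e * f (u x) ≤ f (u x) * T0 e (φ x)
      linarith
    rw [integral_sub Ifφ (If.const_mul _), integral_const_mul] at h2
    have h3 := mul_le_mul_of_nonneg_left h2 lpos.le
    rw [mul_sub] at h3
    linarith
  have h1 : L1 * ∫ x in Ω, u x * φ x ≤
      (l₀ / 2) * (∫ x in Ω, f (u x) * φ x) + (l₀ / 2) * (C0 * ∫ x in Ω, φ x) := by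
    rw [← integral_const_mul, ← integral_const_mul, ← integral_const_mul, ← integral_const_mul,
      ← integral_add (Ifφ.const_mul _) ((Iφ.const_mul _).const_mul _)]
    apply setIntegral_mono_on (Iuφ.const_mul _)
      ((Ifφ.const_mul _).add ((Iφ.const_mul _).const_mul _)) hΩ.measurableSet
    intro x hx
    have h2 := hC0 (u x) (hu.nonneg x hx)
    have h3 := mul_le_mul_of_nonneg_right h2 (hφ.nonneg x hx)
    show L1 * (u x * φ x) ≤ l₀ / 2 * (f (u x) * φ x) + l₀ / 2 * (C0 * φ x)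
    linarith
  have X0 : 0 ≤ ∫ x in Ω, f (u x) * φ x := setIntegral_nonneg hΩ.measurableSet fun x hx =>
    mul_nonneg (zero_le_one.trans (tr_one_le hf (hu.nonneg x hx))) (hφ.nonneg x hx)
  have h2 : ∫ x in Ω, f (u x) * φ x ≤ C0 * ∫ x in Ω, φ x := by
    have h3 : l₀ * (∫ x in Ω, f (u x) * φ x) ≤ l * ∫ x in Ω, f (u x) * φ x :=
      mul_le_mul_of_nonneg_right hl X0
    nlinarith
  refine le_trans ?_ h2
  apply setIntegral_mono_on Ifd Ifφ hΩ.measurableSet
  intro x hx
  exact mul_le_mul_of_nonneg_left (hdφ x hx)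
    (zero_le_one.trans (tr_one_le hf (hu.nonneg x hx)))

end Pool.Agent.Y270.AR
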