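import Pool.Agent.Y520.AR.Stm
import Pool.Agent.H947R3.Stab

/-! Basic lemmas for `Pool.Agent.Y520.AR.Stm` (author: helper270). -/

set_option autoImplicit false

open MeasureTheory Set Filter Topology Laplacian InnerProductSpace
open scoped ContDiff

namespace Pool.Agent.Y270.AR

open Pool.Agent.H947R3 Pool.Agent.Y520.AR

variable {n : ℕ}

/-! ### primitives -/

lemma PP_hasDeriv {y : ℝ → ℝ} (hy : Continuous y) (t : ℝ) : HasDerivAt (PP y) (y t) t :=
  (hy.integral_hasStrictDerivAt 0 t).hasDerivAt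

lemma PP_cont {y : ℝ → ℝ} (hy : Continuous y) : Continuous (PP y) :=
  continuous_iff_continuousAt.2 fun t => (PP_hasDeriv hy t).continuousAt

lemma contDiff_one_of {F k : ℝ → ℝ} (hk : Continuous k) (h : ∀ t, HasDerivAt F (k t) t) :
    ContDiff ℝ 1 F := by
  rw [contDiff_one_iff_deriv]
  refine ⟨fun t => (h t).differentiableAt, ?_⟩
  have : deriv F = k := funext fun t => (h t).deriv
  rwa [this]

lemma PP_zero {y : ℝ → ℝ} {ε : ℝ} (hε : 0 < ε) (h : ∀ s, s ≤ ε → y s = 0) {t : ℝ} (ht : t ≤ ε) :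
    PP y t = 0 := by
  unfold PP
  have : ∫ s in (0 : ℝ)..t, y s = ∫ s in (0 : ℝ)..t, (0 : ℝ) := by
    apply intervalIntegral.integral_congr
    intro s hs
    have h1 : s ≤ max 0 t := hs.2
    exact h s (h1.trans (max_le hε.le ht))
  rw [this]; simp

lemma PP_nonneg {y : ℝ → ℝ} (h : ∀ s, 0 ≤ s → 0 ≤ y s) {t : ℝ} (ht : 0 ≤ t) : 0 ≤ PP y t :=
  intervalIntegral.integral_nonneg ht fun s hs => h s hs.1

/-! ### nonlinearities -/

lemma tr_cont_deriv {f : ℝ → ℝ} (hf : TypeR f) : Continuous (deriv f) :=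
  hf.smooth.continuous_deriv (by simp)

lemma tr_cont {f : ℝ → ℝ} (hf : TypeR f) : Continuous f := hf.smooth.continuous

lemma tr_hasDeriv {f : ℝ → ℝ} (hf : TypeR f) (t : ℝ) : HasDerivAt f (deriv f t) t :=
  (hf.smooth.differentiable (by simp) t).hasDerivAt

lemma tr_deriv_nonneg {f : ℝ → ℝ} (hf : TypeR f) (t : ℝ) : 0 ≤ deriv f t :=
  hf.increasing.monotone.deriv_nonneg

lemma tr_one_le {f : ℝ → ℝ} (hf : TypeR f) {t : ℝ} (ht : 0 ≤ t) : 1 ≤ f t := by
  have := hf.increasing.monotone ht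
  rwa [hf.at_zero] at this

lemma tr_tangent {f : ℝ → ℝ} (hf : TypeR f) (a b : ℝ) : f a + deriv f a * (b - a) ≤ f b := by
  rcases lt_trichotomy a b with h | h | h
  · have h1 := hf.convex.le_slope_of_hasDerivAt (mem_univ a) (mem_univ b) h (tr_hasDeriv hf a)
    rw [slope_def_field, le_div_iff₀ (by linarith)] at h1
    linarith
  · subst h; simp
  · have h1 := hf.convex.slope_le_of_hasDerivAt (mem_univ b) (mem_univ a) h (tr_hasDeriv hf a)
    rw [slope_def_field, div_le_iff₀ (by linarith)] at h1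
    linarith

/-! ### compositions -/

section
variable {Ω : Set (E n)} {u : E n → ℝ} {Θ : ℝ → ℝ} {ε : ℝ}

lemma superlevel_compact (hΩ : IsOpen Ω) (hb : Bornology.IsBounded Ω) (h : Ad Ω u) (hε : 0 < ε) :
    IsCompact {x | x ∈ Ω ∧ ε ≤ u x} := by
  have h1 : {x | x ∈ Ω ∧ ε ≤ u x} = closure Ω ∩ u ⁻¹' (Ici ε) := by
    ext x
    constructor
    · rintro ⟨h1, h2⟩
      exact ⟨subset_closure h1, h2⟩
    · rintro ⟨h1, h2⟩
      refine ⟨?_, h2⟩
      by_contra hx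
      have : x ∈ frontier Ω := by
        rw [frontier, hΩ.interior_eq]; exact ⟨h1, hx⟩
      have h3 := h.bdry x this
      have h4 : ε ≤ u x := h2
      linarith
  rw [h1]
  have h2 : IsClosed (closure Ω ∩ u ⁻¹' (Ici ε)) :=
    h.cont.preimage_isClosed_of_isClosed isClosed_closure isClosed_Ici
  exact hb.isCompact_closure.of_isClosed_subset h2 inter_subset_left

lemma tsupport_cmp (hΩ : IsOpen Ω) (hb : Bornology.IsBounded Ω) (h : Ad Ω u) (hε : 0 < ε)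
    (hz : ∀ t, t < ε → Θ t = 0) : tsupport (cmp Ω Θ u) ⊆ {x | x ∈ Ω ∧ ε ≤ u x} := by
  apply closure_minimal _ (superlevel_compact hΩ hb h hε).isClosed
  intro x hx
  have hxΩ : x ∈ Ω := by
    by_contra hcon
    exact hx (by simp [H947R3.cmp, hcon])
  refine ⟨hxΩ, ?_⟩
  by_contra hcon
  push Not at hcon
  apply hx
  simp [H947R3.cmp, hxΩ, hz _ hcon]

lemma hasCompactSupport_cmp (hΩ : IsOpen Ω) (hb : Bornology.IsBounded Ω) (h : Ad Ω u) (hε : 0 < ε)
    (hz : ∀ t, t < ε → Θ t = 0) : HasCompactSupport (cmp Ω Θ u) :=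
  (superlevel_compact hΩ hb h hε).of_isClosed_subset (isClosed_tsupport _)
    (tsupport_cmp hΩ hb h hε hz)

lemma tsupport_cmp_subset (hΩ : IsOpen Ω) (hb : Bornology.IsBounded Ω) (h : Ad Ω u) (hε : 0 < ε)
    (hz : ∀ t, t < ε → Θ t = 0) : tsupport (cmp Ω Θ u) ⊆ Ω :=
  (tsupport_cmp hΩ hb h hε hz).trans (fun _ hx => hx.1)

lemma contDiff_cmp (hΩ : IsOpen Ω) (hb : Bornology.IsBounded Ω) (h : Ad Ω u) (hε : 0 < ε)
    (hz : ∀ t, t < ε → Θ t = 0) (hΘ : ContDiff ℝ 1 Θ) : ContDiff ℝ 1 (cmp Ω Θ u) := by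
  apply contDiff_of_tsupp
  intro x hx
  have hxΩ := tsupport_cmp_subset hΩ hb h hε hz hx
  have h1 : ContDiffAt ℝ 1 u x := (h.c2.contDiffAt (hΩ.mem_nhds hxΩ)).of_le (by norm_num)
  exact (hΘ.contDiffAt.comp x h1).congr_of_eventuallyEq (cmp_eventuallyEq hΩ hxΩ)

lemma fderiv_cmp (hΩ : IsOpen Ω) (h : Ad Ω u) {θ' : ℝ} {x : E n} (hx : x ∈ Ω)
    (hΘ : HasDerivAt Θ θ' (u x)) : fderiv ℝ (cmp Ω Θ u) x = θ' • fderiv ℝ u x := by
  rw [(cmp_eventuallyEq hΩ hx).fderiv_eq]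
  have h1 : DifferentiableAt ℝ u x :=
    (h.c2.contDiffAt (hΩ.mem_nhds hx)).differentiableAt (by norm_num)
  have h2 := hΘ.comp_hasFDerivAt x h1.hasFDerivAt
  have h3 : HasFDerivAt (fun y => Θ (u y)) (θ' • fderiv ℝ u x) x := h2
  exact h3.fderiv

lemma pd_cmp (hΩ : IsOpen Ω) (h : Ad Ω u) {θ' : ℝ} {x : E n} (hx : x ∈ Ω)
    (hΘ : HasDerivAt Θ θ' (u x)) (i : Fin n) : pd (cmp Ω Θ u) i x = θ' * pd u i x := by
  unfold pd
  rw [fderiv_cmp hΩ h hx hΘ]
  simp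

lemma cmp_mem {x : E n} (hx : x ∈ Ω) : cmp Ω Θ u x = Θ (u x) := by simp [H947R3.cmp, hx]

lemma cmp_notMem {x : E n} (hx : x ∉ Ω) : cmp Ω Θ u x = 0 := by simp [H947R3.cmp, hx]

lemma exists_bound (hb : Bornology.IsBounded Ω) (h : ContinuousOn u (closure Ω)) :
    ∃ M : ℝ, 0 < M ∧ ∀ x ∈ closure Ω, |u x| ≤ M := by
  obtain ⟨M, hM⟩ := hb.isCompact_closure.exists_bound_of_continuousOn h
  refine ⟨max M 1, by positivity, fun x hx => ?_⟩
  exact (hM x hx).trans (le_max_left _ _)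

/-- compositions with a nonnegative bounded function -/
lemma exists_bound_comp (hb : Bornology.IsBounded Ω) (h : ContinuousOn u (closure Ω))
    {g : ℝ → ℝ} (hg : Continuous g) : ∃ M : ℝ, 0 < M ∧ ∀ x ∈ closure Ω, |g (u x)| ≤ M :=
  exists_bound (u := fun x => g (u x)) hb (hg.comp_continuousOn h)

/-- the bound of the divergence -/
lemma dv_le {c : E n → E n} {B : ℝ} (hc : Drift Ω c B) {x : E n} (hx : x ∈ Ω) :
    |dv c x| ≤ n * B := by
  unfold dv
  refine (Finset.abs_sum_le_sum_abs _ _).trans ?_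
  have : ∀ i ∈ (Finset.univ : Finset (Fin n)), |fderiv ℝ c x (bv i) i| ≤ B := by
    intro i _
    have h1 : |fderiv ℝ c x (bv i) i| ≤ ‖fderiv ℝ c x (bv i)‖ := by
      have := EuclideanSpace.norm_eq (fderiv ℝ c x (bv i))
      have h2 := PiLp.norm_apply_le (fderiv ℝ c x (bv i)) i
      simpa using h2
    have h2 : ‖fderiv ℝ c x (bv i)‖ ≤ ‖fderiv ℝ c x‖ * ‖(bv i : E n)‖ :=
      (fderiv ℝ c x).le_opNorm _
    have h3 : ‖(bv i : E n)‖ = 1 := by simp [bv]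
    rw [h3, mul_one] at h2
    exact h1.trans (h2.trans (hc.bd' x hx))
  refine (Finset.sum_le_sum this).trans ?_
  simp

end

end Pool.Agent.Y270.AR
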