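import Pool.Agent.Y270.AR.Base

/-! Removal of the cutoff near `0`, statement `S_MAIN` of `Pool.Agent.Y520.AR.Stm`
(author: helper270). -/

set_option autoImplicit false

open MeasureTheory Set Filter Topology Laplacian InnerProductSpace
open scoped ContDiff

namespace Pool.Agent.Y270.AR

open Pool.Agent.H947R3 Pool.Agent.Y520.AR

variable {n : ℕ}

lemma PP_tendsto {h : ℕ → ℝ → ℝ} {h' : ℝ → ℝ} {A m : ℝ} (hc : ∀ k, Continuous (h k))
    (hb : ∀ k, ∀ s ∈ Icc 0 m, |h k s| ≤ A)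
    (hl : ∀ s ∈ Ioc 0 m, Tendsto (fun k => h k s) atTop (𝓝 (h' s))) {t : ℝ} (ht : t ∈ Icc 0 m) :
    Tendsto (fun k => PP (h k) t) atTop (𝓝 (PP h' t)) := by
  unfold PP
  apply intervalIntegral.tendsto_integral_filter_of_dominated_convergence (fun _ => A)
  · exact Eventually.of_forall fun k => (hc k).aestronglyMeasurable
  · refine Eventually.of_forall fun k => ae_of_all _ fun s hs => ?_
    rw [uIoc_of_le ht.1] at hs
    exact hb k s ⟨hs.1.le, hs.2.trans ht.2⟩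
  · exact intervalIntegrable_const
  · refine ae_of_all _ fun s hs => ?_
    rw [uIoc_of_le ht.1] at hs
    exact hl s ⟨hs.1, hs.2.trans ht.2⟩

lemma PP_bound {h : ℝ → ℝ} {A m : ℝ} (hm : 0 ≤ m) (hA : 0 ≤ A)
    (hb : ∀ s ∈ Icc 0 m, |h s| ≤ A) {t : ℝ} (ht : t ∈ Icc 0 m) : |PP h t| ≤ A * m := by
  unfold PP
  have h1 : ‖∫ s in (0 : ℝ)..t, h s‖ ≤ A * |t - 0| := by
    apply intervalIntegral.norm_integral_le_of_norm_le_const
    intro s hs
    rw [uIoc_of_le ht.1] at hs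
    exact hb s ⟨hs.1.le, hs.2.trans ht.2⟩
  rw [sub_zero, abs_of_nonneg ht.1, Real.norm_eq_abs] at h1
  exact h1.trans (mul_le_mul_of_nonneg_left ht.2 hA)

lemma comp_tendsto {Ω : Set (E n)} (hΩ : IsOpen Ω) (hb : Bornology.IsBounded Ω) {u : E n → ℝ}
    (hu : ContinuousOn u Ω) {F : ℕ → ℝ → ℝ} {F' : ℝ → ℝ} {A m : ℝ}
    (hum : ∀ x ∈ Ω, u x ∈ Icc 0 m)
    (hc : ∀ k, Continuous (F k)) (hbd : ∀ k, ∀ s ∈ Icc 0 m, |F k s| ≤ A)
    (hl : ∀ s ∈ Icc 0 m, Tendsto (fun k => F k s) atTop (𝓝 (F' s))) :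
    Tendsto (fun k => ∫ x in Ω, F k (u x)) atTop (𝓝 (∫ x in Ω, F' (u x))) := by
  apply tendsto_integral_of_dominated_convergence (fun _ => A)
  · intro k
    exact ((hc k).comp_continuousOn hu).aestronglyMeasurable hΩ.measurableSet
  · have : volume Ω < ⊤ := hb.measure_lt_top
    exact integrableOn_const this.ne
  · intro k
    exact ae_restrict_of_forall_mem hΩ.measurableSet fun x hx => hbd k _ (hum x hx)
  · exact ae_restrict_of_forall_mem hΩ.measurableSet fun x hx => hl _ (hum x hx)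

/-- the cutoff -/
noncomputable def chi (k : ℕ) (s : ℝ) : ℝ := max 0 (min 1 (s * (k + 1) - 1))

lemma chi_cont (k : ℕ) : Continuous (chi k) := by unfold chi; fun_prop

lemma chi_nn (k : ℕ) (s : ℝ) : 0 ≤ chi k s := le_max_left _ _

lemma chi_le (k : ℕ) (s : ℝ) : chi k s ≤ 1 := max_le zero_le_one (min_le_left _ _)

lemma chi_zero (k : ℕ) {s : ℝ} (hs : s ≤ 1 / (k + 1)) : chi k s = 0 := by
  have hk : (0 : ℝ) < k + 1 := by positivity
  rw [le_div_iff₀ hk] at hs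
  unfold chi
  apply max_eq_left
  exact (min_le_right _ _).trans (by linarith)

lemma chi_tendsto {s : ℝ} (hs : 0 < s) : Tendsto (fun k => chi k s) atTop (𝓝 1) := by
  have h1 : Tendsto (fun k : ℕ => s * ((k : ℝ) + 1)) atTop atTop :=
    (tendsto_natCast_atTop_atTop.atTop_add tendsto_const_nhds).const_mul_atTop hs
  apply tendsto_const_nhds.congr'
  filter_upwards [h1.eventually_ge_atTop 2] with k hk
  unfold chi
  rw [min_eq_left (by linarith), max_eq_right zero_le_one]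

theorem t_MAIN (h0 : S_MAIN0) : S_MAIN := by
  intro n Ω c B f l l' u u' hΩ hb hc hf hl hll hu hu' hle y hy
  obtain ⟨m, hm, hmb⟩ := exists_bound hb hu.cont
  have hum : ∀ x ∈ Ω, u x ∈ Icc 0 m := fun x hx =>
    ⟨hu.nonneg x hx, (le_abs_self _).trans (hmb x (subset_closure hx))⟩
  have uc : ContinuousOn u Ω := hu.c2.continuousOn
  -- bounds on `[0, m]`
  have hcompact : IsCompact (Icc 0 m) := isCompact_Icc
  obtain ⟨A0, hA0⟩ := hcompact.exists_bound_of_continuousOn (f := y) hy.continuousOn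
  obtain ⟨A1, hA1⟩ := hcompact.exists_bound_of_continuousOn (f := f) (tr_cont hf).continuousOn
  obtain ⟨A2, hA2⟩ := hcompact.exists_bound_of_continuousOn (f := deriv f)
    (tr_cont_deriv hf).continuousOn
  simp only [Real.norm_eq_abs] at hA0 hA1 hA2
  have h0m : (0 : ℝ) ∈ Icc 0 m := ⟨le_rfl, hm.le⟩
  have A0n : 0 ≤ A0 := (abs_nonneg _).trans (hA0 0 h0m)
  have A1n : 0 ≤ A1 := (abs_nonneg _).trans (hA1 0 h0m)
  have A2n : 0 ≤ A2 := (abs_nonneg _).trans (hA2 0 h0m)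
  -- the approximations
  set yk : ℕ → ℝ → ℝ := fun k s => y s * chi k s with hyk
  have ykc : ∀ k, Continuous (yk k) := fun k => hy.mul (chi_cont k)
  have ykb : ∀ k, ∀ s ∈ Icc 0 m, |yk k s| ≤ A0 := by
    intro k s hs
    simp only [hyk]
    rw [abs_mul, abs_of_nonneg (chi_nn k s)]
    calc |y s| * chi k s ≤ A0 * 1 := mul_le_mul (hA0 s hs) (chi_le k s) (chi_nn k s) A0n
      _ = A0 := mul_one _
  have ykl : ∀ s ∈ Ioc 0 m, Tendsto (fun k => yk k s) atTop (𝓝 (y s)) := by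
    intro s hs
    have := (chi_tendsto hs.1).const_mul (y s)
    rwa [mul_one] at this
  have y2c : ∀ k, Continuous (fun s => yk k s ^ 2) := fun k => (ykc k).pow 2
  have y2b : ∀ k, ∀ s ∈ Icc 0 m, |yk k s ^ 2| ≤ A0 ^ 2 := by
    intro k s hs
    rw [abs_pow]
    exact pow_le_pow_left₀ (abs_nonneg _) (ykb k s hs) 2
  have y2l : ∀ s ∈ Ioc 0 m, Tendsto (fun k => yk k s ^ 2) atTop (𝓝 (y s ^ 2)) := fun s hs =>
    (ykl s hs).pow 2
  have Pc : ∀ k, Continuous (PP (yk k)) := fun k => PP_cont (ykc k)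
  have gc : ∀ k, Continuous (PP (fun s => yk k s ^ 2)) := fun k => PP_cont (y2c k)
  have Gc : ∀ k, Continuous (PP (PP (fun s => yk k s ^ 2))) := fun k => PP_cont (gc k)
  have Pb : ∀ k, ∀ t ∈ Icc 0 m, |PP (yk k) t| ≤ A0 * m := fun k t ht =>
    PP_bound hm.le A0n (ykb k) ht
  have gb : ∀ k, ∀ t ∈ Icc 0 m, |PP (fun s => yk k s ^ 2) t| ≤ A0 ^ 2 * m := fun k t ht =>
    PP_bound hm.le (sq_nonneg _) (y2b k) ht
  have Gb : ∀ k, ∀ t ∈ Icc 0 m, |PP (PP (fun s => yk k s ^ 2)) t| ≤ A0 ^ 2 * m * m :=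
    fun k t ht => PP_bound hm.le (by positivity) (gb k) ht
  have Pl : ∀ t ∈ Icc 0 m, Tendsto (fun k => PP (yk k) t) atTop (𝓝 (PP y t)) := fun t ht =>
    PP_tendsto ykc ykb ykl ht
  have gl : ∀ t ∈ Icc 0 m, Tendsto (fun k => PP (fun s => yk k s ^ 2) t) atTop
      (𝓝 (PP (fun s => y s ^ 2) t)) := fun t ht => PP_tendsto y2c y2b y2l ht
  have Gl : ∀ t ∈ Icc 0 m, Tendsto (fun k => PP (PP (fun s => yk k s ^ 2)) t) atTop
      (𝓝 (PP (PP (fun s => y s ^ 2)) t)) := fun t ht =>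
    PP_tendsto gc gb (fun s hs => gl s ⟨hs.1.le, hs.2⟩) ht
  have LL : Tendsto (fun k => ∫ x in Ω, (deriv f (u x) * PP (yk k) (u x) ^ 2 -
      f (u x) * PP (fun s => yk k s ^ 2) (u x))) atTop (𝓝 (∫ x in Ω,
      (deriv f (u x) * PP y (u x) ^ 2 - f (u x) * PP (fun s => y s ^ 2) (u x)))) := by
    apply comp_tendsto hΩ hb uc (F := fun k t => deriv f t * PP (yk k) t ^ 2 -
      f t * PP (fun s => yk k s ^ 2) t) (F' := fun t => deriv f t * PP y t ^ 2 -
      f t * PP (fun s => y s ^ 2) t) (A := A2 * (A0 * m) ^ 2 + A1 * (A0 ^ 2 * m)) hum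
    · intro k
      exact ((tr_cont_deriv hf).mul ((Pc k).pow 2)).sub ((tr_cont hf).mul (gc k))
    · intro k t ht
      refine (abs_sub _ _).trans (add_le_add ?_ ?_)
      · rw [abs_mul, abs_pow]
        exact mul_le_mul (hA2 t ht) (pow_le_pow_left₀ (abs_nonneg _) (Pb k t ht) 2)
          (by positivity) A2n
      · rw [abs_mul]
        exact mul_le_mul (hA1 t ht) (gb k t ht) (abs_nonneg _) A1n
    · intro t ht
      exact (((Pl t ht).pow 2).const_mul _).sub ((gl t ht).const_mul _)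
  have RR : Tendsto (fun k => ∫ x in Ω, (PP (yk k) (u x) ^ 2 +
      PP (PP (fun s => yk k s ^ 2)) (u x))) atTop (𝓝 (∫ x in Ω,
      (PP y (u x) ^ 2 + PP (PP (fun s => y s ^ 2)) (u x)))) := by
    apply comp_tendsto hΩ hb uc (F := fun k t => PP (yk k) t ^ 2 +
      PP (PP (fun s => yk k s ^ 2)) t) (F' := fun t => PP y t ^ 2 +
      PP (PP (fun s => y s ^ 2)) t) (A := (A0 * m) ^ 2 + A0 ^ 2 * m * m) hum
    · intro k
      exact ((Pc k).pow 2).add (Gc k)
    · intro k t ht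
      refine (abs_add_le _ _).trans (add_le_add ?_ (Gb k t ht))
      rw [abs_pow]
      exact pow_le_pow_left₀ (abs_nonneg _) (Pb k t ht) 2
    · intro t ht
      exact ((Pl t ht).pow 2).add (Gl t ht)
  refine le_of_tendsto_of_tendsto' (LL.const_mul l) (RR.const_mul _) fun k => ?_
  exact h0 n Ω c B f l l' u u' hΩ hb hc hf hl hll hu hu' hle (yk k) (ykc k) (1 / (k + 1))
    (by positivity) (fun s hs => by simp only [hyk]; rw [chi_zero k hs, mul_zero])

end Pool.Agent.Y270.AR
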